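import Pool.Agent.H77.SSA.GDefs

/-!
MDL: the model.
-/

set_option synthInstance.maxSize 100000

namespace SSA

open SW CU CUR

theorem ssa_mdl (hC : CHOStmt) (hB : BASStmt) (hS : SMPStmt) (hD : DMFStmt) (hL : SLFStmt) :
    MDLStmt := by
  intro P _ Ω _ _ D p
  let η : ℕ → HN P Tg := fun i => match i with
    | 0 => omH P Tg
    | 1 => oN P Ω
    | 2 => aN D
    | 3 => zN D
    | i + 4 => numH P Tg i
  obtain ⟨ν, c, hg, _, hν⟩ := genExists P Tg p η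
  have hR : Rich ν := ⟨fun n => hν (n + 4), hν 0⟩
  have hZC : ZFC (GQ ν c) := hC P ν c hg
  have hZ : ZF (GQ ν c) := gn_zf hg
  obtain ⟨o, ho⟩ := hν 1
  obtain ⟨b, hb⟩ := hν 2
  obtain ⟨z, hz⟩ := hν 3
  obtain ⟨b1, b2, b3⟩ := hB P ν c hg hR
  obtain ⟨s1, s2, s3⟩ := hS P Ω D ν c hg hR o b z ho hb hz
  refine ⟨GQ ν c, inferInstance, hZC, inferInstance, gn_wf hg, qc ν c o, qc ν c b, qc ν c z, ?_⟩
  exact ⟨b1, s1, s2, s3, hD P Ω D ν c hg hR o z ho hz, hL P Ω D ν c hg hR o b ho hb⟩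

end SSA
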